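import Pool.Agent.Helper3.GU.OneVar
import Pool.Graph.R_pool_sql_team_seeded_2aa45f1a.Q170.GO.Split

/-!
# Clozel's conjecture: the motives of graph hypersurfaces are sufficient

For a number field `ε` let `𝓜 ε` be the category of motives over `ℚ` for absolute Hodge cycles with
coefficients in `ε`; it is abelian and semisimple (Deligne). `(D ε).H j X` is the graded object (for the
weight filtration) of the cohomology with compact supports `H^j_c(X) ⊗ ε` of a separated scheme `X` of finite
type over `ℚ`, an object of `𝓜 ε`. The simple objects of `𝓜 ε` are, by the definition of motives, direct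
factors of Tate twists of the cohomology of smooth projective schemes (hypothesis `generated`).

For a simple graph `G` with the vertices `0, …, n` let `K_G` be the Kirchhoff polynomial (the sum over the
spanning trees of the products of the variables of their edges) and `Ψ_G` the first Symanzik polynomial
(of the Feynman integrals). We consider the graphs with at most three edges at each vertex (`Subcubic`);
they are obtained by leaving out and subdividing edges of Feynman graphs of the `φ³`-theory.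

**Theorem.** (1) For each separated scheme `Y` of finite type over `ℚ` there is a finite list `L` of such
graphs (the same for all coefficient fields `ε`) such that every simple motive `N` which is a direct factor
of a Tate twist of the cohomology with compact supports of `Y` is a Tate motive (a direct factor of a twist
of the cohomology of the point) or is a direct factor of a Tate twist of the cohomology with compact supports

* of the complement of the graph hypersurface `K_G = 0` in the affine space, for some `G` in `L`;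
* of the graph hypersurface `K_G = 0`, for some `G` in `L`;
* of its complement in the torus, for some `G` in `L`;
* of the complement of `Ψ_G = 0` in the torus, for some `G` in `L`.

(2) Let `Good` be any condition on motives, such as (1) and (2) of the question for a given representation
`Π` together with the absolute irreducibility. There is a simple motive with the property `Good`, for some
coefficient field, if and only if there is one which is a Tate motive or comes (up to a Tate twist) from one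
graph with at most three edges at each vertex, in each of the four ways.

Proof. The motives in which the simple motive `N` does not occur form a Serre class, and the schemes whose
cohomology with compact supports is in this class have the closure properties of the theorem on graph
hypersurfaces (`Pool.Agent.Helper3.GU.finite_list`).
-/

set_option autoImplicit false

open CategoryTheory CategoryTheory.Limits AlgebraicGeometry Pool.Agent.Y116.UV Pool.Agent.Z125.UN
  Pool.Agent.Q193.LT Pool.Agent.Helper3.GU Pool.Agent.Q170.GO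

universe v u

namespace Pool.Agent.Results.MP_7742d9_nt.GraphHypersurfaces

/-- `N` is a direct factor of a Tate twist of `H^i_c(X)`, for some `i`. -/
def Occurs {M : Type u} [Category.{v} M] (D : CompactData ℚ M) (N : M) (X : Sch ℚ) : Prop :=
  ∃ (i b : ℤ) (s : N ⟶ (D.tw b).obj (D.H i X)) (r : (D.tw b).obj (D.H i X) ⟶ N), s ≫ r = 𝟙 N

/-- `N` is a Tate motive, or it comes from a graph with the property `Q`, in each of the four ways. -/
def FromGraphs {M : Type u} [Category.{v} M] (D : CompactData ℚ M)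
    (Q : ∀ n : ℕ, SimpleGraph (Fin (n + 1)) → Prop) (N : M) : Prop :=
  Occurs D N (aff ℚ ℚ) ∨
    (∃ n G, Q n G ∧ Occurs D N (graphS ℚ G)) ∧ (∃ n G, Q n G ∧ Occurs D N (graphH ℚ G)) ∧
      (∃ n G, Q n G ∧ Occurs D N (graphT ℚ G)) ∧ ∃ n G, Q n G ∧ Occurs D N (feynmanT ℚ G)

lemma occurs_iff {M : Type u} [Category.{v} M] [Abelian M] {D : CompactData ℚ M}
    (hs : ∀ {X Y : M} (f : X ⟶ Y), Mono f → ∃ r : Y ⟶ X, f ≫ r = 𝟙 X) (N : M) (X : Sch ℚ) :
    ¬ Occurs D N X ↔ ∀ i, Data.NotOcc (⟨D.H, fun _ => D.H, D.tw⟩ : Data ℚ M) N (D.H i X) := by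
  unfold Data.NotOcc Data.Occ Occurs
  simp only [factor_iff hs]
  unfold Factor
  push Not
  rfl

lemma from_list {M : Type u} [Category.{v} M] [Abelian M] {D : CompactData ℚ M} (hD : IsCompact D)
    (hs : ∀ {X Y : M} (f : X ⟶ Y), Mono f → ∃ r : Y ⟶ X, f ≫ r = 𝟙 X) {Y : Sch ℚ}
    {L : List (Σ n : ℕ, SimpleGraph (Fin (n + 1)))}
    (hL : ∀ P : Sch ℚ → Prop, Mot True P → ((∀ G ∈ L, P (graphS ℚ G.2)) ∨
      (∀ G ∈ L, P (graphH ℚ G.2)) ∨ (∀ G ∈ L, P (graphT ℚ G.2)) ∨
        ∀ G ∈ L, P (feynmanT ℚ G.2)) → P Y)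
    (N : M) (hN : Simple N) (h : Occurs D N Y) :
    FromGraphs D (fun n G => (⟨n, G⟩ : Σ n : ℕ, SimpleGraph (Fin (n + 1))) ∈ L) N := by
  by_cases hp : Occurs D N (aff ℚ ℚ)
  · exact Or.inl hp
  have h1 := (occurs_iff hs N (aff ℚ ℚ)).mp hp
  have h2 : Mot True fun X : Sch ℚ => ¬ Occurs D N X := by
    have h3 : (fun X : Sch ℚ => ¬ Occurs D N X) =
        fun X => ∀ i, Data.NotOcc (⟨D.H, fun _ => D.H, D.tw⟩ : Data ℚ M) N (D.H i X) := by
      funext X
      exact propext (occurs_iff hs N X)
    rw [h3]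
    exact mot_of_bnd (bnd_compact hD
      (notOcc_serre (D := (⟨D.H, fun _ => D.H, D.tw⟩ : Data ℚ M)) hD) h1)
  have h3 := hL _ h2
  refine Or.inr ⟨?_, ?_, ?_, ?_⟩ <;> by_contra hc
  · exact h3 (Or.inl fun G hG h' => hc ⟨G.1, G.2, hG, h'⟩) h
  · exact h3 (Or.inr (Or.inl fun G hG h' => hc ⟨G.1, G.2, hG, h'⟩)) h
  · exact h3 (Or.inr (Or.inr (Or.inl fun G hG h' => hc ⟨G.1, G.2, hG, h'⟩))) h
  · exact h3 (Or.inr (Or.inr (Or.inr fun G hG h' => hc ⟨G.1, G.2, hG, h'⟩))) h

/-- **Clozel's conjecture and graph hypersurfaces.** See the explanations above. -/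
theorem result {J : Type} {𝓜 : J → Type u} [∀ ε, Category.{v} (𝓜 ε)] [∀ ε, Abelian (𝓜 ε)]
    {D : ∀ ε, CompactData ℚ (𝓜 ε)} (hD : ∀ ε, IsCompact (D ε))
    (semisimple : ∀ ε {X Y : 𝓜 ε} (f : X ⟶ Y), Mono f → ∃ r : Y ⟶ X, f ≫ r = 𝟙 X)
    (generated : ∀ ε (N : 𝓜 ε), Simple N → ∃ Y : Sch ℚ, SmoothProj Y ∧ Occurs (D ε) N Y) :
    (∀ Y : Sch ℚ, FT True Y → ∃ L : List (Σ n : ℕ, SimpleGraph (Fin (n + 1))),
      (∀ G ∈ L, Subcubic G.2) ∧ ∀ ε (N : 𝓜 ε), Simple N → Occurs (D ε) N Y →
        FromGraphs (D ε) (fun n G => (⟨n, G⟩ : Σ n : ℕ, SimpleGraph (Fin (n + 1))) ∈ L) N) ∧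
    ∀ Good : ∀ ε, 𝓜 ε → Prop, (∃ ε N, Simple N ∧ Good ε N) ↔
      ∃ ε N, Simple N ∧ Good ε N ∧ FromGraphs (D ε) (fun _ G => Subcubic G) N := by
  have h1 : ∀ Y : Sch ℚ, FT True Y → ∃ L : List (Σ n : ℕ, SimpleGraph (Fin (n + 1))),
      (∀ G ∈ L, Subcubic G.2) ∧ ∀ ε (N : 𝓜 ε), Simple N → Occurs (D ε) N Y →
        FromGraphs (D ε) (fun n G => (⟨n, G⟩ : Σ n : ℕ, SimpleGraph (Fin (n + 1))) ∈ L) N := by
    intro Y hY
    obtain ⟨L, hL, h⟩ := finite_list (sep := True) (presents_frac frac_rat) Y hY
    exact ⟨L, hL, fun ε N hN hN' => from_list (hD ε) (semisimple ε) h N hN hN'⟩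
  refine ⟨h1, fun Good => ⟨?_, ?_⟩⟩
  · rintro ⟨ε, N, hN, hG⟩
    refine ⟨ε, N, hN, hG, ?_⟩
    obtain ⟨Y, hY, hY'⟩ := generated ε N hN
    obtain ⟨L, hL, h⟩ := h1 Y hY.ft
    rcases h ε N hN hY' with h | ⟨⟨n1, G1, q1, o1⟩, ⟨n2, G2, q2, o2⟩, ⟨n3, G3, q3, o3⟩,
      n4, G4, q4, o4⟩
    · exact Or.inl h
    · exact Or.inr ⟨⟨n1, G1, hL _ q1, o1⟩, ⟨n2, G2, hL _ q2, o2⟩, ⟨n3, G3, hL _ q3, o3⟩,
        n4, G4, hL _ q4, o4⟩
  · rintro ⟨ε, N, hN, hG, -⟩
    exact ⟨ε, N, hN, hG⟩

end Pool.Agent.Results.MP_7742d9_nt.GraphHypersurfaces
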