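import Pool.Agent.Helper53.SZ.Occ

/-!
# Clozel's conjecture: the motives of matrices with square zero are sufficient, weight by weight

For a number field `ε` let `𝓜 ε` be the category of motives over `ℚ` for absolute Hodge cycles with
coefficients in `ε`; it is abelian and semisimple (Deligne). For a separated scheme `X` of finite type over
`ℚ` let `H ε w n X` be the graded object `Gr^W_w H^n_c(X) ⊗ ε` of weight `w` of the cohomology with compact
supports. A simple motive is effective of weight `w` if it is a direct factor of `H^w(Y) ⊗ ε` for a smooth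
projective scheme `Y`; every simple motive has this property after a Tate twist, and the question for a
representation `Π` is not changed if `Π` is twisted by a power of the norm and the motive by the
corresponding Tate twist.

**Theorem.** Let `w` be an integer (there are no Tate twists and no other weights).

1. For a simple motive `N` with coefficients in `ε` the following are equivalent: `N` is effective of weight
   `w`; `N` is a direct factor of `Gr^W_w H^n_c(Z) ⊗ ε` for some `n` and for the scheme `Z` of the pairs of
   matrices `A`, `B` with `A B = 0` and with some prescribed zeros; `N` is a direct factor of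
   `Gr^W_w H^n_c(Z) ⊗ ε` for some `n` and for the scheme `Z` of the strictly upper triangular matrices `M`
   with `M² = 0` and with some prescribed zeros.
2. For every separated scheme `Y` of finite type over `ℚ` there is a finite list `L` of sets of positions
   above the diagonal (the same for all coefficient fields `ε` and all weights `w`) such that every simple
   direct factor of `Gr^W_w H^n_c(Y) ⊗ ε` is a direct factor of `Gr^W_w H^m_c(Z) ⊗ ε` for some `m` and for the
   scheme `Z` of the matrices `M` with `M² = 0` and with zeros outside of the positions of some pattern in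
   `L`.
3. Let `Good` be any condition on motives, such as (1) and (2) of the question for a given representation
   `Π` together with the absolute irreducibility. There is a simple motive, effective of weight `w`, with
   the property `Good` for some coefficient field if and only if there is one which is a direct factor of
   `Gr^W_w H^n_c(Z) ⊗ ε` for a scheme `Z` as in 1.

In contrast to the families of graph hypersurfaces and of the cubic hypersurfaces `T(x, y, z) = 1` no
Tate twists are necessary, and there is no exception for the Tate motives.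
-/

set_option autoImplicit false

open CategoryTheory CategoryTheory.Limits AlgebraicGeometry Pool.Agent.Y116.UV Pool.Agent.Q193.LT
  Pool.Agent.Q282.UK Pool.Agent.Helper53.SZ

universe v u

namespace Pool.Agent.Results.MP_7742d9_nt.SquareZeroMatrices

/-- `N` occurs in weight `w` for the strictly upper triangular matrices with square zero and with some
prescribed zeros. -/
def FromMatrices {M : Type u} [Category.{v} M] (H : ℤ → Sch ℚ → M) (N : M) : Prop :=
  ∃ (m : ℕ) (G : Fin m → Fin m → Prop), (∀ i j, G i j → i < j) ∧ Occurs H N (squareZero ℚ G)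

/-- `N` is effective: it occurs for a smooth projective scheme. -/
def Effective {M : Type u} [Category.{v} M] (H : ℤ → Sch ℚ → M) (N : M) : Prop :=
  ∃ Y : Sch ℚ, SmoothProj Y ∧ Occurs H N Y

/-- **Clozel's conjecture and matrices with square zero.** See the explanations above. -/
theorem result {J : Type} {𝓜 : J → Type u} [∀ ε, Category.{v} (𝓜 ε)] [∀ ε, Abelian (𝓜 ε)]
    {H : ∀ ε, ℤ → ℤ → Sch ℚ → 𝓜 ε} (pieces : ∀ ε w, IsPieces (H ε w))
    (generated : ∀ ε w, IsGenerated (H ε w))
    (semisimple : ∀ ε {X Y : 𝓜 ε} (f : X ⟶ Y), Mono f → ∃ r : Y ⟶ X, f ≫ r = 𝟙 X) :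
    (∀ ε w (N : 𝓜 ε), Simple N →
      [Effective (H ε w) N,
        ∃ (a b c : ℕ) (S : Fin a → Fin b → Prop) (T : Fin b → Fin c → Prop),
          Occurs (H ε w) N (productZero ℚ S T),
        FromMatrices (H ε w) N].TFAE) ∧
    (∀ Y : Sch ℚ, FT True Y → ∃ L : List (Σ m : ℕ, Fin m → Fin m → Prop),
      (∀ G ∈ L, ∀ i j, G.2 i j → i < j) ∧ ∀ ε w (N : 𝓜 ε), Simple N → Occurs (H ε w) N Y →
        ∃ G ∈ L, Occurs (H ε w) N (squareZero ℚ G.2)) ∧
    ∀ (w : ℤ) (Good : ∀ ε, 𝓜 ε → Prop),
      (∃ ε N, Simple N ∧ Good ε N ∧ Effective (H ε w) N) ↔
        ∃ ε N, Simple N ∧ Good ε N ∧ FromMatrices (H ε w) N := by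
  have h1 : ∀ ε w (N : 𝓜 ε), Simple N →
      [Effective (H ε w) N,
        ∃ (a b c : ℕ) (S : Fin a → Fin b → Prop) (T : Fin b → Fin c → Prop),
          Occurs (H ε w) N (productZero ℚ S T),
        FromMatrices (H ε w) N].TFAE := by
    intro ε w N hN
    have h := occurs_tfae Pool.Agent.Q282.UM.presents_rat (pieces ε w) (generated ε w)
      (semisimple ε) N hN
    have h02 := h.out 0 2
    have h23 := h.out 2 3
    tfae_have 1 ↔ 2 := h02
    tfae_have 2 ↔ 3 := h23
    tfae_finish
  refine ⟨h1, fun Y hY => ?_, fun w Good => ?_⟩
  · obtain ⟨L, hL, h⟩ := occurs_list.{v, u} Pool.Agent.Q282.UM.presents_rat Y hY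
    exact ⟨L, hL, fun ε w N hN hN' => h (semisimple ε) (pieces ε w) N hN hN'⟩
  · constructor
    · rintro ⟨ε, N, hN, hG, hE⟩
      exact ⟨ε, N, hN, hG, ((h1 ε w N hN).out 0 2).1 hE⟩
    · rintro ⟨ε, N, hN, hG, hE⟩
      exact ⟨ε, N, hN, hG, ((h1 ε w N hN).out 0 2).2 hE⟩

end Pool.Agent.Results.MP_7742d9_nt.SquareZeroMatrices
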